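import Pool.Agent.H607R3.PS.Grade
import Pool.Agent.H51R3.PS.Common
import Pool.Agent.H594.PSRegP
import Pool.Agent.H841.PSRes
import Pool.Agent.H633R3.PS.Loc
import Pool.Agent.H291R3.PSB.Base

set_option autoImplicit false
set_option linter.all false

/-!
The grade conjecture fails over the ring `RP = RR[[t]]/(s t)` of the project H607-PS
(MP_a907e8_ag, S00360): the tasks `GradeP` and `DimP` and the assembly.
-/

namespace Pool.Agent.H70.GC

open Pool.Agent.H607R3.PS H51R3.PS IsLocalRing RingTheory.Sequence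

variable {T : Type} [CommRing T] {α β γ : T}

/-- the map `RP → T` killing `x`, `w` and `t` -/
noncomputable def rhoP : RP T α β γ →+* T :=
  Ideal.Quotient.lift _ ((rho (T := T) (α := α) (β := β) (γ := γ)).comp
    (PowerSeries.constantCoeff (R := RR T α β γ))) (by
      intro f hf
      rw [Ideal.mem_span_singleton] at hf
      obtain ⟨c, rfl⟩ := hf
      simp)

theorem rhoP_mk (f : PowerSeries (RR T α β γ)) :
    rhoP (Ideal.Quotient.mk _ f : RP T α β γ) = (PowerSeries.constantCoeff f).a := rfl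

theorem rhoP_toRP (u : RR T α β γ) : rhoP (toRP u) = u.a := by
  show (PowerSeries.constantCoeff (PowerSeries.C u)).a = u.a
  simp

/-- multiplication by `s` -/
theorem s_mul (f : PowerSeries (RR T α β γ)) :
    (toRP (RR.s : RR T α β γ) : RP T α β γ) * Ideal.Quotient.mk _ f =
      toRP (RR.s * RR.emb (PowerSeries.constantCoeff f).a) := by
  have h1 : (RR.s * RR.emb (PowerSeries.constantCoeff f).a : RR T α β γ) =
      RR.s * PowerSeries.constantCoeff f := by
    rw [mul_comm, mul_comm RR.s, mul_s, mul_s]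
    simp
  rw [h1]
  show Ideal.Quotient.mk _ (PowerSeries.C (RR.s : RR T α β γ)) * Ideal.Quotient.mk _ f =
    Ideal.Quotient.mk _ (PowerSeries.C (RR.s * PowerSeries.constantCoeff f))
  rw [← map_mul, Ideal.Quotient.eq, Ideal.mem_span_singleton]
  refine ⟨PowerSeries.mk fun p => PowerSeries.coeff (p + 1) f, ?_⟩
  conv_lhs => rw [PowerSeries.eq_shift_mul_X_add_const f]
  rw [map_mul]
  simp
  ring

/-- the prime of the `s`-axis -/
noncomputable def QP (T : Type) [CommRing T] (α β γ : T) : Ideal (RP T α β γ) :=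
  (Ideal.span {α, β} : Ideal T).comap rhoP

theorem mem_QP {f : RP T α β γ} : f ∈ QP T α β γ ↔ rhoP f ∈ (Ideal.span {α, β} : Ideal T) :=
  Iff.rfl

theorem QP_min (hp : (Ideal.span {α, β} : Ideal T).IsPrime)
    (hg : γ ∉ (Ideal.span {α, β} : Ideal T)) :
    QP T α β γ ∈ (Ideal.span {toRP (RR.emb α : RR T α β γ), toRP (RR.emb β)} :
      Ideal (RP T α β γ)).minimalPrimes := by
  refine ⟨⟨Ideal.comap_isPrime _ _, ?_⟩, ?_⟩
  · rw [Ideal.span_le]
    intro f hf
    rw [SetLike.mem_coe, mem_QP]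
    rcases hf with rfl | hf
    · rw [rhoP_toRP]
      exact Ideal.subset_span (by simp)
    · rw [Set.mem_singleton_iff] at hf
      rw [hf, rhoP_toRP]
      exact Ideal.subset_span (by simp)
  · rintro P ⟨hP, hle⟩ hPQ f hf
    have hs : (toRP (RR.s : RR T α β γ) : RP T α β γ) ∉ P := by
      intro h
      have h2 := hPQ h
      rw [mem_QP, rhoP_toRP] at h2
      exact hg h2
    refine (hP.mem_or_mem (?_ : (toRP (RR.s : RR T α β γ) : RP T α β γ) * f ∈ P)).resolve_left hs
    obtain ⟨F, rfl⟩ := Ideal.Quotient.mk_surjective f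
    rw [s_mul, map_mul]
    refine Ideal.mul_mem_left _ _ ?_
    rw [mem_QP, rhoP_mk, Ideal.mem_span_pair] at hf
    obtain ⟨p, q, h⟩ := hf
    rw [← h, map_add, map_add, map_mul, map_mul, map_mul, map_mul]
    refine Ideal.add_mem _ (Ideal.mul_mem_left _ _ (hle (Ideal.subset_span (by simp))))
      (Ideal.mul_mem_left _ _ (hle (Ideal.subset_span (by simp))))

theorem cP_le_QP : cP T α β γ ≤ QP T α β γ := by
  unfold cP cI
  rw [Ideal.span_le]
  rintro _ ⟨i, rfl⟩
  rw [SetLike.mem_coe, mem_QP]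
  have h : gens (toRP (RR.x : RR T α β γ)) (toRP RR.y) (toRP RR.z) (toRP RR.w) (toRP RR.s) i =
      toRP (gens (RR.x : RR T α β γ) RR.y RR.z RR.w RR.s i) := by
    fin_cases i <;> simp [gens]
  rw [h, rhoP_toRP]
  exact rho_gens i

theorem no_reg3 (S : Type*) [CommRing S] [IsLocalRing S] [IsNoetherianRing S]
    (h : ringKrullDim S ≤ 2) (rs : List S) (hreg : IsRegular S rs) (hl : rs.length = 3) :
    False := by
  have h4 := ringKrullDim_add_length_eq_ringKrullDim_of_isRegular rs hreg
  rw [hl] at h4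
  have h5 : Nontrivial (S ⧸ Ideal.ofList rs) := by
    apply Ideal.Quotient.nontrivial_iff.mpr
    intro h
    apply hreg.2
    rw [h]
    simp
  have h6 : (0 : WithBot ℕ∞) ≤ ringKrullDim (S ⧸ Ideal.ofList rs) :=
    ringKrullDim_nonneg_of_nontrivial
  have h7 : (3 : WithBot ℕ∞) ≤ 2 := by
    calc (3 : WithBot ℕ∞) = 0 + 3 := by rw [zero_add]
      _ ≤ ringKrullDim (S ⧸ Ideal.ofList rs) + 3 := add_le_add h6 le_rfl
      _ = ringKrullDim S := h4
      _ ≤ 2 := h
  exact absurd (by exact_mod_cast h7 : (3 : ℕ) ≤ 2) (by decide)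

/-- TASK GradeP: no weakly regular sequence of length three in the ideal. -/
theorem taskGradeP : TaskGradeP := by
  intro T _ _ _ _ α β γ hB
  rintro ⟨rs, hlen, hmem, hreg⟩
  have hmin := QP_min (α := α) (β := β) (γ := γ) hB.prime2 hB.notMem
  have hQ : (QP T α β γ).IsPrime := hmin.1.1
  have hN : IsNoetherianRing (RP T α β γ) := noeth_RP
  have h1 : (QP T α β γ).height ≤ 2 := by
    have h2 := Ideal.height_le_card_of_mem_minimalPrimes_span
      (s := {toRP (RR.emb α : RR T α β γ), toRP (RR.emb β)}) (Set.toFinite _) hmin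
    refine h2.trans ?_
    have h3 : ({toRP (RR.emb α : RR T α β γ), toRP (RR.emb β)} :
        Set (RP T α β γ)).ncard ≤ 2 := by
      refine (Set.ncard_insert_le _ _).trans ?_
      rw [Set.ncard_singleton]
    exact_mod_cast h3
  have h3 := hreg.isRegular_of_isLocalization_of_mem (Localization.AtPrime (QP T α β γ))
    (QP T α β γ) (fun r hr => cP_le_QP (hmem r hr))
  refine no_reg3 _ ?_ _ h3 (by rw [List.length_map, hlen])
  rw [IsLocalization.AtPrime.ringKrullDim_eq_height (QP T α β γ)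
    (Localization.AtPrime (QP T α β γ))]
  exact WithBot.coe_le_coe.2 h1

/-- the kernel of `RP → RP / cP` in small dimension: primes containing `cP` and `s + t` are
maximal -/
theorem prime_eq_max [IsLocalRing T] (hmax : maximalIdeal T = Ideal.span {α, β, γ})
    (P : Ideal (RP T α β γ)) (hP : P.IsPrime) (hc : cP T α β γ ≤ P)
    (hst : (toRP (RR.s : RR T α β γ) + Ideal.Quotient.mk _ PowerSeries.X : RP T α β γ) ∈ P) :
    P.IsMaximal := by
  set x' : RP T α β γ := toRP RR.x with hx'
  set y' : RP T α β γ := toRP RR.y with hy'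
  set z' : RP T α β γ := toRP RR.z with hz'
  set w' : RP T α β γ := toRP RR.w with hw'
  set s' : RP T α β γ := toRP RR.s with hs'
  set t' : RP T α β γ := Ideal.Quotient.mk _ PowerSeries.X with ht'
  have hst0 : s' * t' = 0 := by
    show Ideal.Quotient.mk _ (PowerSeries.C (RR.s : RR T α β γ)) * Ideal.Quotient.mk _ _ = 0
    rw [← map_mul, Ideal.Quotient.eq_zero_iff_mem]
    exact Ideal.mem_span_singleton_self _
  have hg : ∀ i, gens x' y' z' w' s' i ∈ P := fun i => hc (Ideal.subset_span ⟨i, rfl⟩)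
  have hs : s' ∈ P := by
    have h1 : s' * (s' + t') ∈ P := Ideal.mul_mem_left _ _ hst
    rw [mul_add, hst0, add_zero] at h1
    exact (hP.mem_or_mem h1).elim id id
  have ht : t' ∈ P := by
    have h1 : (s' + t') - s' ∈ P := Ideal.sub_mem _ hst hs
    rwa [add_sub_cancel_left] at h1
  have hy : y' ∈ P := hP.mem_of_pow_mem 3 (hg 0)
  have hz : z' ∈ P := hP.mem_of_pow_mem 2 (hg 1)
  have hx : x' ∈ P := by
    have h1 : x' ^ 2 + s' ^ 2 * z' ∈ P := hg 3
    have h2 : (x' ^ 2 + s' ^ 2 * z') - s' ^ 2 * z' ∈ P :=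
      Ideal.sub_mem _ h1 (Ideal.mul_mem_left _ _ hz)
    rw [add_sub_cancel_right] at h2
    exact hP.mem_of_pow_mem 2 h2
  have hw : w' ∈ P := by
    have h1 : w' ^ 4 + s' * y' * z' ∈ P := hg 4
    have h2 : (w' ^ 4 + s' * y' * z') - s' * y' * z' ∈ P :=
      Ideal.sub_mem _ h1 (Ideal.mul_mem_left _ _ hz)
    rw [add_sub_cancel_right] at h2
    exact hP.mem_of_pow_mem 4 h2
  -- elements of the maximal ideal of `T`
  have ha : (toRP (RR.emb α : RR T α β γ) : RP T α β γ) ∈ P := by
    rw [← RR.x_sub_y, map_sub]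
    exact Ideal.sub_mem _ hx hy
  have hb : (toRP (RR.emb β : RR T α β γ) : RP T α β γ) ∈ P := by
    rw [← RR.z_eq]
    exact hz
  have hc' : (toRP (RR.emb γ : RR T α β γ) : RP T α β γ) ∈ P := by
    rw [← RR.s_add_w, map_add]
    exact Ideal.add_mem _ hs hw
  have hm : ∀ u ∈ maximalIdeal T, (toRP (RR.emb u : RR T α β γ) : RP T α β γ) ∈ P := by
    intro u hu
    have h1 : maximalIdeal T ≤ P.comap ((toRP (α := α) (β := β) (γ := γ)).comp RR.emb) := by
      rw [hmax, Ideal.span_le]
      rintro v (rfl | rfl | hv)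
      · exact ha
      · exact hb
      · rw [Set.mem_singleton_iff] at hv
        rw [hv]
        exact hc'
    exact h1 hu
  refine Ideal.isMaximal_def.2 ⟨hP.ne_top, ?_⟩
  intro J hJ
  obtain ⟨hPJ, f, hfJ, hfP⟩ := SetLike.lt_iff_le_and_exists.1 hJ
  obtain ⟨F, rfl⟩ := Ideal.Quotient.mk_surjective f
  -- `f = emb a + (element of P)`
  have h1 : (Ideal.Quotient.mk _ F : RP T α β γ) - toRP (RR.emb (PowerSeries.constantCoeff F).a) ∈ P := by
    have e1 : (Ideal.Quotient.mk _ F : RP T α β γ) =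
        Ideal.Quotient.mk _ (PowerSeries.mk fun p => PowerSeries.coeff (p + 1) F) * t' +
          toRP (PowerSeries.constantCoeff F) := by
      conv_lhs => rw [PowerSeries.eq_shift_mul_X_add_const F]
      rw [map_add, map_mul]
      rfl
    have e2 := RR.decomp (PowerSeries.constantCoeff F)
    rw [e1]
    have e3 : (toRP (PowerSeries.constantCoeff F) : RP T α β γ) =
        toRP (RR.emb (PowerSeries.constantCoeff F).a) +
        toRP (RR.emb (PowerSeries.constantCoeff F).b) * x' +
        toRP (RR.emb (PowerSeries.constantCoeff F).c) * w' := by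
      conv_lhs => rw [e2]
      rw [map_add, map_add, map_mul, map_mul]
    rw [e3]
    have e4 : ∀ a b c d : RP T α β γ, a + (b + c + d) - b = a + c + d := fun a b c d => by ring
    rw [e4]
    exact Ideal.add_mem _ (Ideal.add_mem _ (Ideal.mul_mem_left _ _ ht)
      (Ideal.mul_mem_left _ _ hx)) (Ideal.mul_mem_left _ _ hw)
  have h2 : IsUnit (PowerSeries.constantCoeff F).a := by
    by_contra hcon
    apply hfP
    have h3 := hm _ ((mem_maximalIdeal _).2 hcon)
    have h4 := Ideal.add_mem _ h1 h3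
    rwa [sub_add_cancel] at h4
  have h3 : (toRP (RR.emb (PowerSeries.constantCoeff F).a) : RP T α β γ) ∈ J := by
    have h4 := Ideal.sub_mem _ hfJ (hPJ h1)
    rwa [sub_sub_cancel] at h4
  exact Ideal.eq_top_of_isUnit_mem _ h3
    ((h2.map (RR.emb : T →+* RR T α β γ)).map (toRP : RR T α β γ →+* RP T α β γ))

theorem dim_quot_le_one (R : Type*) [CommRing R] [IsLocalRing R] [IsNoetherianRing R]
    (I : Ideal R) (hI : I ≠ ⊤) (u : R) (hu : u ∈ maximalIdeal R)
    (h : ∀ P : Ideal R, P.IsPrime → I ≤ P → u ∈ P → P.IsMaximal) :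
    ringKrullDim (R ⧸ I) ≤ 1 := by
  haveI : Nontrivial (R ⧸ I) := Ideal.Quotient.nontrivial_iff.mpr hI
  haveI : IsLocalRing (R ⧸ I) :=
    IsLocalRing.of_surjective' (Ideal.Quotient.mk _) Ideal.Quotient.mk_surjective
  rw [← IsLocalRing.maximalIdeal_height_eq_ringKrullDim]
  have key : ∀ P : Ideal (R ⧸ I), P.IsPrime →
      (Ideal.span {Ideal.Quotient.mk I u}) ≤ P → P = maximalIdeal _ := by
    intro P hP hle
    apply IsLocalRing.eq_maximalIdeal
    have h2 : (P.comap (Ideal.Quotient.mk I)).IsMaximal := by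
      apply h _ (Ideal.comap_isPrime _ _)
      · intro v hv
        rw [Ideal.mem_comap, Ideal.Quotient.eq_zero_iff_mem.2 hv]
        exact Ideal.zero_mem _
      · rw [Ideal.mem_comap]
        exact hle (Ideal.mem_span_singleton_self _)
    have h3 := h2.map_of_surjective_of_ker_le (f := Ideal.Quotient.mk I)
      Ideal.Quotient.mk_surjective (by
        rw [Ideal.mk_ker]
        intro v hv
        rw [Ideal.mem_comap, Ideal.Quotient.eq_zero_iff_mem.2 hv]
        exact Ideal.zero_mem _)
    rwa [Ideal.map_comap_of_surjective _ Ideal.Quotient.mk_surjective] at h3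
  have h1 : maximalIdeal (R ⧸ I) ∈ (Ideal.span {Ideal.Quotient.mk I u}).minimalPrimes := by
    obtain ⟨P, hP⟩ := Ideal.nonempty_minimalPrimes (I := (Ideal.span {Ideal.Quotient.mk I u})) (by
        intro h
        have h6 : IsUnit (Ideal.Quotient.mk I u) := Ideal.span_singleton_eq_top.1 h
        haveI : IsLocalHom (Ideal.Quotient.mk I) :=
          IsLocalHom.of_surjective _ Ideal.Quotient.mk_surjective
        exact (mem_maximalIdeal _).1 hu (isUnit_of_map_unit _ _ h6))
    have := key P hP.1.1 hP.1.2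
    rw [← this]
    exact hP
  have h2 := Ideal.height_le_one_of_isPrincipal_of_mem_minimalPrimes _ _ h1
  exact WithBot.coe_le_coe.2 h2

/-- `dim RP/cP ≤ 1` -/
theorem dim_cP_le [IsLocalRing T] [IsNoetherianRing T]
    (hmax : maximalIdeal T = Ideal.span {α, β, γ}) :
    ringKrullDim (RP T α β γ ⧸ cP T α β γ) ≤ 1 := by
  have hα : α ∈ maximalIdeal T := by rw [hmax]; exact Ideal.subset_span (by simp)
  have hβ : β ∈ maximalIdeal T := by rw [hmax]; exact Ideal.subset_span (by simp)
  have hγ : γ ∈ maximalIdeal T := by rw [hmax]; exact Ideal.subset_span (by simp)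
  haveI hloc : IsLocalRing (RR T α β γ) := taskLoc T α β γ hα hβ hγ
  haveI : IsLocalRing (RP T α β γ) := local_RP
  haveI : IsNoetherianRing (RP T α β γ) := noeth_RP
  refine dim_quot_le_one _ _ (cP_ne_top hα hβ hγ)
    (toRP (RR.s : RR T α β γ) + Ideal.Quotient.mk _ PowerSeries.X) ?_
    (fun P hP hc hu => prime_eq_max hmax P hP hc hu)
  rw [mem_maximalIdeal]
  intro hun
  have h7 := hun.map (rhoP (α := α) (β := β) (γ := γ))
  rw [map_add, rhoP_toRP, rhoP_mk] at h7
  have h8 : ((RR.s : RR T α β γ).a + (PowerSeries.constantCoeff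
      (PowerSeries.X : PowerSeries (RR T α β γ))).a) = γ := by
    simp [RR.s]
  rw [h8] at h7
  exact (mem_maximalIdeal _).1 hγ h7

/-- TASK DimP: dimensions for the grade conjecture. -/
theorem taskDimP : TaskDimP := by
  intro T _ _ _ _ α β γ hB
  have h1 := dim_cP_le (α := α) (β := β) (γ := γ) hB.max
  have h2 : (4 : WithBot ℕ∞) ≤ ringKrullDim (RP T α β γ) := by
    have h3 := dimA hB
    have h4 := ringKrullDim_succ_le_ringKrullDim_powerseries
      (R := RR T α β γ ⧸ (Ideal.span {RR.s} : Ideal (RR T α β γ)))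
    have h5 : ringKrullDim (PowerSeries (RR T α β γ ⧸ (Ideal.span {RR.s} :
        Ideal (RR T α β γ)))) ≤ ringKrullDim (RP T α β γ) := by
      refine ringKrullDim_le_of_surjective (Ideal.Quotient.lift _
        (PowerSeries.map (Ideal.Quotient.mk (Ideal.span {RR.s} : Ideal (RR T α β γ)))) ?_) ?_
      · intro f hf
        rw [Ideal.mem_span_singleton] at hf
        obtain ⟨c, rfl⟩ := hf
        have h6 : Ideal.Quotient.mk (Ideal.span {RR.s} : Ideal (RR T α β γ)) RR.s = 0 :=
          Ideal.Quotient.eq_zero_iff_mem.2 (Ideal.mem_span_singleton_self _)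
        simp [h6]
      · intro g
        choose F hF using fun n => Ideal.Quotient.mk_surjective
          (I := (Ideal.span {RR.s} : Ideal (RR T α β γ))) (PowerSeries.coeff n g)
        refine ⟨Ideal.Quotient.mk _ (PowerSeries.mk F), ?_⟩
        rw [Ideal.Quotient.lift_mk]
        ext n
        simp [hF]
    calc (4 : WithBot ℕ∞) = 3 + 1 := by norm_num
      _ ≤ _ := add_le_add h3 le_rfl
      _ ≤ _ := h4
      _ ≤ _ := h5
  calc (2 : WithBot ℕ∞) + ringKrullDim (RP T α β γ ⧸ cP T α β γ) ≤ 2 + 1 :=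
        add_le_add le_rfl h1
    _ < 4 := by
      have : (2 : WithBot ℕ∞) + 1 = 3 := by norm_num
      rw [this]
      exact_mod_cast (by decide : (3 : ℕ) < 4)
    _ ≤ _ := h2

/-- **The grade conjecture fails.** -/
theorem main :
    ¬ (∀ (A : Type) [CommRing A] [IsLocalRing A] [IsNoetherianRing A]
      (M : Type) [AddCommGroup M] [Module A M] [Module.Finite A M] [Nontrivial M],
      (∃ P : CategoryTheory.ProjectiveResolution (ModuleCat.of A M), ∃ n : ℕ,
          ∀ i : ℕ, n ≤ i → CategoryTheory.Limits.IsZero (P.complex.X i)) →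
      ∀ g : ℕ,
        (∃ rs : List A, rs.length = g ∧ (∀ r ∈ rs, r ∈ Module.annihilator A M) ∧
            RingTheory.Sequence.IsWeaklyRegular A rs) →
        (¬ ∃ rs : List A, rs.length = g + 1 ∧ (∀ r ∈ rs, r ∈ Module.annihilator A M) ∧
            RingTheory.Sequence.IsWeaklyRegular A rs) →
        (g : WithBot ℕ∞) + ringKrullDim (A ⧸ Module.annihilator A M) = ringKrullDim A) := by
  intro h
  obtain ⟨T, iT, iL, iN, iD, α, β, γ, hB⟩ := Pool.Agent.H291R3.PSB.taskBase
  obtain ⟨hα, hβ, hγ⟩ := mem_max hB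
  haveI hloc : IsLocalRing (RR T α β γ) := taskLoc T α β γ hα hβ hγ
  haveI : IsLocalRing (RP T α β γ) := local_RP
  haveI : IsNoetherianRing (RP T α β γ) := noeth_RP
  haveI : Nontrivial (RP T α β γ ⧸ cP T α β γ) :=
    Ideal.Quotient.nontrivial_iff.mpr (cP_ne_top hα hβ hγ)
  have hres := finRes_RP (taskRes) (taskRegP) hγ hB.reg
  have h1 := h (RP T α β γ) (RP T α β γ ⧸ cP T α β γ) hres 2
  rw [Ideal.annihilator_quotient] at h1
  have hreg := taskRegP T α β γ hB.reg
  have h2 := h1 ⟨[toRP (RR.emb α) ^ 4, toRP (RR.emb β) ^ 2], rfl, by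
      intro r hr
      rcases List.mem_cons.1 hr with rfl | hr
      · exact mem_F
      · rw [List.mem_singleton] at hr
        rw [hr]
        exact mem_G, weaklyRegular_pair hreg⟩ (taskGradeP T α β γ hB)
  have h3 := taskDimP T α β γ hB
  exact absurd h2 (ne_of_lt (by exact_mod_cast h3))

end Pool.Agent.H70.GC
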